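import Pool.Agent.helper34.MO.SpecC

/-! Project MO (MP_0631c5_co), row LNK: link between the matrix of the triangulation and the tree recursion. -/

open Complex Finset

namespace Pool.Agent.MO

/-- `F` with the data of a branch added at the ports `i`, `j` -/
noncomputable def LNK_add (F : ℕ → ℕ → ℂ) (i j : ℕ) (b : BD) : ℕ → ℕ → ℂ := fun x y =>
  F x y + (if x = i ∧ y = i then b.al else 0) + (if x = j ∧ y = j then b.be else 0) +
    (if (x = i ∧ y = j) ∨ (x = j ∧ y = i) then b.mu else 0)

theorem LNK_add_of_ne_left {F : ℕ → ℕ → ℂ} {i j x y : ℕ} {b : BD} (hi : x ≠ i) (hj : x ≠ j) :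
    LNK_add F i j b x y = F x y := by
  unfold LNK_add
  rw [if_neg (fun h => hi h.1), if_neg (fun h => hj h.1),
    if_neg (fun h => h.elim (fun h => hi h.1) (fun h => hj h.1)), add_zero, add_zero, add_zero]

theorem LNK_add_of_ne_right {F : ℕ → ℕ → ℂ} {i j x y : ℕ} {b : BD} (hi : y ≠ i) (hj : y ≠ j) :
    LNK_add F i j b x y = F x y := by
  unfold LNK_add
  rw [if_neg (fun h => hi h.2), if_neg (fun h => hj h.2),
    if_neg (fun h => h.elim (fun h => hj h.2) (fun h => hi h.2)), add_zero, add_zero, add_zero]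

theorem LNK_MT {w : ℕ → ℝ} {A B : ℕ → ℕ → ℝ} {x y : ℕ} (h : A x y = B x y) : MT w A x y = MT w B x y := by
  unfold MT
  rw [h]

/-- outside the support -/
theorem LNK_out (hATS : ATS_stmt) (t : Tr) (i x y : ℕ)
    (h : x < i ∨ i + t.sz + 1 < x ∨ y < i ∨ i + t.sz + 1 < y) : AT t i x y = 0 := by
  by_contra hne
  have h1 := ((hATS.1 t i x y).2.2.2.1) hne
  omega

theorem LNK_AT_nd (l r : Tr) (i x y : ℕ) : AT (.nd l r) i x y =
    (if (x = i ∧ y = i + l.sz + 1) ∨ (x = i + l.sz + 1 ∧ y = i) ∨
        (x = i + l.sz + 1 ∧ y = i + l.sz + 1 + r.sz + 1) ∨ (x = i + l.sz + 1 + r.sz + 1 ∧ y = i + l.sz + 1)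
      then 1 else 0) + AT l i x y + AT r (i + l.sz + 1) x y := rfl

theorem LNK_core (hPHE : PHE_stmt) (hPHS : PHS_stmt) (hATS : ATS_stmt) (w : ℕ → ℝ) :
    ∀ (t : Tr) (i : ℕ) (O : Finset ℕ) (F : ℕ → ℕ → ℂ), i ∈ O → i + t.sz + 1 ∈ O →
      (∀ x ∈ O, ¬ (i < x ∧ x < i + t.sz + 1)) →
      (∀ x y, ((i < x ∧ x < i + t.sz + 1) ∨ (i < y ∧ y < i + t.sz + 1)) → F x y = MT w (AT t i) x y) →
      AccS F (O ∪ Ioo i (i + t.sz + 1)) →
      phS F (O ∪ Ioo i (i + t.sz + 1)) = (bd (wt w t i)).psi +
        phS (LNK_add F i (i + t.sz + 1) (bd (wt w t i))) O ∧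
      AccS (LNK_add F i (i + t.sz + 1) (bd (wt w t i))) O := by
  intro t
  induction t with
  | e =>
    intro i O F _ _ _ _ hacc
    have h1 : O ∪ Ioo i (i + Tr.e.sz + 1) = O := by
      have h2 : Ioo i (i + Tr.e.sz + 1) = ∅ := by
        ext x
        simp [Tr.sz]
      rw [h2, union_empty]
    rw [h1] at hacc ⊢
    have h2 : LNK_add F i (i + Tr.e.sz + 1) (bd (wt w Tr.e i)) = F := by
      funext x y
      simp [LNK_add, wt, bd]
    rw [h2]
    have h3 : (bd (wt w Tr.e i)).psi = 0 := rfl
    rw [h3, zero_add]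
    exact ⟨rfl, hacc⟩
  | nd l r ihl ihr =>
    intro i O F hi hj hO hF hacc
    have hjj : i + (Tr.nd l r).sz + 1 = i + l.sz + 1 + r.sz + 1 := by
      show i + (l.sz + r.sz + 1) + 1 = _
      omega
    rw [hjj] at hj hO hF hacc ⊢
    obtain ⟨k, hk⟩ : ∃ k, k = i + l.sz + 1 := ⟨_, rfl⟩
    rw [← hk] at hj hO hF hacc ⊢
    obtain ⟨j, hjdef⟩ : ∃ j, j = k + r.sz + 1 := ⟨_, rfl⟩
    have ihl' := ihl i
    have ihr' := ihr k
    rw [← hk] at ihl'
    rw [← hjdef] at hj hO hF hacc ihr' ⊢
    have hik : i < k := by omega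
    have hkj : k < j := by omega
    have hkO : k ∉ O := fun h => hO k h ⟨hik, hkj⟩
    have hAT : ∀ x y, AT (.nd l r) i x y =
        (if (x = i ∧ y = k) ∨ (x = k ∧ y = i) ∨ (x = k ∧ y = j) ∨ (x = j ∧ y = k) then 1 else 0)
          + AT l i x y + AT r k x y := by
      intro x y
      rw [LNK_AT_nd, ← hk, ← hjdef]
    have hlout : ∀ x y, (x < i ∨ k < x ∨ y < i ∨ k < y) → AT l i x y = 0 := by
      intro x y h
      apply LNK_out hATS
      rw [← hk]
      exact h
    have hrout : ∀ x y, (x < k ∨ j < x ∨ y < k ∨ j < y) → AT r k x y = 0 := by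
      intro x y h
      apply LNK_out hATS
      rw [← hjdef]
      exact h
    obtain ⟨L, hL⟩ : ∃ L, L = bd (wt w l i) := ⟨_, rfl⟩
    obtain ⟨R, hR⟩ : ∃ R, R = bd (wt w r k) := ⟨_, rfl⟩
    rw [← hL] at ihl'
    rw [← hR] at ihr'
    have hbd : bd (wt w (Tr.nd l r) i) = comb (w k) L R := by
      rw [hL, hR, hk]
      rfl
    rw [hbd]
    -- the branch `r`
    obtain ⟨O₁, hO₁⟩ : ∃ O₁, O₁ = insert k O ∪ Ioo i k := ⟨_, rfl⟩
    have hU : O ∪ Ioo i j = O₁ ∪ Ioo k j := by
      rw [hO₁]
      ext x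
      simp only [mem_union, mem_insert, mem_Ioo]
      constructor
      · rintro (h | h)
        · exact Or.inl (Or.inl (Or.inr h))
        · rcases lt_trichotomy x k with h1 | h1 | h1
          · exact Or.inl (Or.inr ⟨h.1, h1⟩)
          · exact Or.inl (Or.inl (Or.inl h1))
          · exact Or.inr ⟨h1, h.2⟩
      · rintro (((h | h) | h) | h)
        · right; omega
        · exact Or.inl h
        · right; omega
        · right; omega
    rw [hU] at hacc ⊢
    have hmem₁ : ∀ x, x ∈ O₁ ↔ (x = k ∨ x ∈ O) ∨ (i < x ∧ x < k) := by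
      intro x
      rw [hO₁, mem_union, mem_insert, mem_Ioo]
    obtain ⟨e1, a1⟩ := ihr' O₁ F ((hmem₁ k).2 (Or.inl (Or.inl rfl))) ((hmem₁ j).2 (Or.inl (Or.inr hj)))
      (by
        intro x hx
        rcases (hmem₁ x).1 hx with (h | h) | h
        · omega
        · have := hO x h
          omega
        · omega)
      (by
        intro x y hxy
        rw [hF x y (by omega)]
        apply LNK_MT
        rw [hAT, if_neg (by omega), hlout x y (by omega), zero_add, zero_add])
      hacc
    rw [e1]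
    -- the branch `l`
    obtain ⟨F₁, hF₁⟩ : ∃ F₁, F₁ = LNK_add F k j R := ⟨_, rfl⟩
    rw [← hF₁] at a1 ⊢
    rw [hO₁] at a1 ⊢
    obtain ⟨e2, a2⟩ := ihl' (insert k O) F₁ (mem_insert_of_mem hi) (mem_insert_self _ _)
      (by
        intro x hx
        rcases mem_insert.1 hx with h | h
        · omega
        · have := hO x h
          omega)
      (by
        intro x y hxy
        have h1 : F₁ x y = F x y := by
          rw [hF₁]
          rcases hxy with h | h
          · exact LNK_add_of_ne_left (by omega) (by omega)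
          · exact LNK_add_of_ne_right (by omega) (by omega)
        rw [h1, hF x y (by omega)]
        apply LNK_MT
        rw [hAT, if_neg (by omega), hrout x y (by omega), zero_add, add_zero])
      a1
    rw [e2]
    obtain ⟨F₂, hF₂⟩ : ∃ F₂, F₂ = LNK_add F₁ i k L := ⟨_, rfl⟩
    rw [← hF₂] at a2 ⊢
    -- elimination of `k`
    obtain ⟨_, a3, e3, _⟩ := hPHS F₂ O k hkO a2
    rw [e3]
    have hATsym : ∀ (t : Tr) (i x y : ℕ), AT t i x y = AT t i y x := fun t i x y => (hATS.1 t i x y).1
    have hATdiag : ∀ (t : Tr) (i x : ℕ), AT t i x x = 0 := fun t i x => (hATS.1 t i x x).2.2.1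
    have hFkk : F k k = w k := by
      rw [hF k k (by omega)]
      unfold MT
      rw [if_pos rfl, hATdiag]
      simp
    have hpiv : F₂ k k = pv (w k) L R := by
      rw [hF₂, hF₁]
      unfold LNK_add pv
      rw [hFkk]
      have h1 : k ≠ j := by omega
      have h2 : k ≠ i := by omega
      simp [h1, h2]
      ring
    -- column and row `k`
    have hATk : ∀ x ∈ O, AT (.nd l r) i x k = if x = i ∨ x = j then 1 else 0 := by
      intro x hx
      have hx' := hO x hx
      rw [hAT]
      by_cases hxi : x = i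
      · have h1 : AT l i x k = 0 := by
          rw [hxi, hk]
          exact (hATS.1 l i 0 0).2.2.2.2
        rw [if_pos (Or.inl ⟨hxi, rfl⟩), if_pos (Or.inl hxi), h1, hrout x k (by omega), add_zero, add_zero]
      · by_cases hxj : x = j
        · have h1 : AT r k x k = 0 := by
            rw [hATsym, hxj, hjdef]
            exact (hATS.1 r k 0 0).2.2.2.2
          rw [if_pos (Or.inr (Or.inr (Or.inr ⟨hxj, rfl⟩))), if_pos (Or.inr hxj), h1, hlout x k (by omega),
            add_zero, add_zero]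
        · rw [if_neg (by omega), if_neg (by omega), hlout x k (by omega), hrout x k (by omega), add_zero, add_zero]
    have hFk : ∀ x ∈ O, F x k = (if x = i ∨ x = j then -I else 0) ∧ F k x = (if x = i ∨ x = j then -I else 0) := by
      intro x hx
      have hxk : x ≠ k := fun h => hkO (h ▸ hx)
      have h1 := hATk x hx
      have h2 : AT (.nd l r) i k x = if x = i ∨ x = j then 1 else 0 := by rw [hATsym, h1]
      rw [hF x k (by omega), hF k x (by omega)]
      unfold MT
      rw [if_neg hxk, if_neg (Ne.symm hxk), h1, h2]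
      by_cases h : x = i ∨ x = j
      · rw [if_pos h, if_pos h]
        simp
      · rw [if_neg h, if_neg h]
        simp
    have hij : i ≠ j := by omega
    have hik' : k ≠ i := by omega
    have hkj' : k ≠ j := by omega
    have hF₂k : ∀ x ∈ O, F₂ x k = (if x = i then L.mu - I else 0) + (if x = j then R.mu - I else 0) ∧
        F₂ k x = (if x = i then L.mu - I else 0) + (if x = j then R.mu - I else 0) := by
      intro x hx
      have hxk : x ≠ k := fun h => hkO (h ▸ hx)
      obtain ⟨h1, h2⟩ := hFk x hx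
      rw [hF₂, hF₁]
      unfold LNK_add
      rw [h1, h2]
      by_cases hxi : x = i
      · have hxj : x ≠ j := by omega
        subst hxi
        constructor <;> simp [hxk, hxj, hij, hik', hkj', Ne.symm hxk] <;> ring
      · by_cases hxj : x = j
        · subst hxj
          constructor <;> simp [hxk, hxi, hij, hik', hkj', Ne.symm hxk] <;> ring
        · constructor <;> simp [hxk, hxi, hxj, hij, hik', hkj', Ne.symm hxk]
    have hF₂O : ∀ x ∈ O, ∀ y ∈ O, F₂ x y = F x y + (if x = i ∧ y = i then L.al else 0) +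
        (if x = j ∧ y = j then R.be else 0) := by
      intro x hx y hy
      have hxk : x ≠ k := fun h => hkO (h ▸ hx)
      have hyk : y ≠ k := fun h => hkO (h ▸ hy)
      rw [hF₂, hF₁]
      unfold LNK_add
      simp [hxk, hyk]
      ring
    have key : ∀ x ∈ O, ∀ y ∈ O, sch F₂ k x y = LNK_add F i j (comb (w k) L R) x y := by
      intro x hx y hy
      unfold sch
      rw [hF₂O x hx y hy, (hF₂k x hx).1, (hF₂k y hy).2, hpiv]
      unfold LNK_add comb
      by_cases hxi : x = i
      · have hxj : x ≠ j := by omega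
        by_cases hyi : y = i
        · have hyj : y ≠ j := by omega
          simp [hxi, hyi, hij]
          ring
        · by_cases hyj : y = j
          · simp [hxi, hyj, hij, Ne.symm hij]
            ring
          · simp [hxi, hyi, hyj, hij]
      · by_cases hxj : x = j
        · by_cases hyi : y = i
          · simp [hxj, hyi, hij, Ne.symm hij]
            ring
          · by_cases hyj : y = j
            · simp [hxj, hyj, Ne.symm hij]
              ring
            · simp [hxj, hyi, hyj, Ne.symm hij]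
        · simp [hxi, hxj]
    obtain ⟨e4, _, a4⟩ := hPHE.2.2.1 (sch F₂ k) (LNK_add F i j (comb (w k) L R)) O key
    refine ⟨?_, a4 a3⟩
    rw [← e4, hpiv]
    show R.psi + (L.psi + (arg (pv (w k) L R) + phS (sch F₂ k) O)) =
      L.psi + R.psi + arg (pv (w k) L R) + phS (sch F₂ k) O
    ring

theorem LNK (hPHE : PHE_stmt) (hPHS : PHS_stmt) (hEV : EV_stmt) (hACM : ACM_stmt) (hATS : ATS_stmt) : LNK_stmt := by
  intro t w hw
  obtain ⟨j, hj⟩ : ∃ j, j = t.sz + 1 := ⟨_, rfl⟩
  have hj0 : 0 < j := by omega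
  have hj1 : (0 : ℕ) + t.sz + 1 = j := by omega
  have hrange : range (t.sz + 2) = ({0, j} : Finset ℕ) ∪ Ioo 0 j := by
    ext x
    simp only [mem_range, mem_union, mem_insert, mem_singleton, mem_Ioo]
    omega
  have hAG : ∀ x y, AG t x y = (if (x = 0 ∧ y = j) ∨ (x = j ∧ y = 0) then 1 else 0) + AT t 0 x y := by
    intro x y
    unfold AG
    rw [← hj]
  have hacc : AccS (MT w (AG t)) (({0, j} : Finset ℕ) ∪ Ioo 0 j) :=
    hACM w (AG t) _ hw fun x y => (hATS.2 t x y).1
  have hcore := LNK_core hPHE hPHS hATS w t 0 {0, j} (MT w (AG t))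
  rw [hj1] at hcore
  obtain ⟨e1, a1⟩ := hcore (by simp) (by simp) (by
    intro x hx
    rw [mem_insert, mem_singleton] at hx
    omega) (by
    intro x y hxy
    apply LNK_MT
    rw [hAG, if_neg (by omega), zero_add]) hacc
  rw [hrange, e1]
  have hAT0 : AT t 0 0 j = 0 := by
    rw [← hj1]
    exact (hATS.1 t 0 0 0).2.2.2.2
  have hATj : AT t 0 j 0 = 0 := by
    rw [(hATS.1 t 0 j 0).1, hAT0]
  have hd : ∀ x, AT t 0 x x = 0 := fun x => (hATS.1 t 0 x x).2.2.1
  have hne : (0 : ℕ) ≠ j := by omega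
  have hF0j : MT w (AG t) 0 j = -I := by
    unfold MT
    rw [if_neg hne, hAG, hAT0]
    simp
  have hFj0 : MT w (AG t) j 0 = -I := by
    unfold MT
    rw [if_neg (Ne.symm hne), hAG, hATj]
    simp
  have hF00 : MT w (AG t) 0 0 = w 0 := by
    unfold MT
    rw [if_pos rfl, hAG, hd]
    simp [hne]
  have hFjj : MT w (AG t) j j = w j := by
    unfold MT
    rw [if_pos rfl, hAG, hd]
    simp [Ne.symm hne]
  have h2 := hEV.1 (LNK_add (MT w (AG t)) 0 j (bd (wt w t 0))) 0 j hne (by
    unfold LNK_add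
    rw [hF0j, hFj0]
    simp [hne, Ne.symm hne]) a1
  rw [h2, ← hj]
  show _ = (bd (wt w t 0)).psi + ph2 (w 0 + (bd (wt w t 0)).al) (w j + (bd (wt w t 0)).be) ((bd (wt w t 0)).mu - I)
  unfold LNK_add
  rw [hF0j, hF00, hFjj]
  simp only [hne, Ne.symm hne, and_self, and_true, true_and, and_false, false_and, or_false, false_or, or_self,
    if_true, if_false, add_zero]
  congr 2
  ring

end Pool.Agent.MO
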